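import Mathlib
import Pool.Agent.H14.NormDefs

set_option autoImplicit false
set_option maxRecDepth 100000

namespace Pool.Agent.Results.MP_de1832_co.TriNotNormal

open Pool.Agent.H14.NormDefs

def ea (e : Fin 18) : Fin 11 := [0,0,0,1,1,1,2,2,2,3,3,3,4,4,4,6,6,6].getD e 0
def eb (e : Fin 18) : Fin 11 := [5,8,9,5,8,9,4,7,10,7,9,10,5,6,8,7,9,10].getD e 0
def inc (x : Fin 11) (e : Fin 18) : Bool := ea e == x || eb e == x
def dis (e f : Fin 18) : Bool := !inc (ea e) f && !inc (eb e) f

def G : SimpleGraph (Fin 18) where
  Adj e f := dis e f = true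
  symm := ⟨by decide +kernel⟩
  loopless := ⟨by decide +kernel⟩

theorem three : ∀ e f g : Fin 18, e ≠ f → dis e f = false → dis g e = false → dis g f = false →
    ∀ x, inc x e = true → inc x f = true → inc x g = true := by decide +kernel

theorem two : ∀ e f : Fin 18, dis e f = false → ∃ x, inc x e = true ∧ inc x f = true := by
  decide +kernel

theorem self_dis : ∀ e : Fin 18, dis e e = false := by decide +kernel

theorem inc_a : ∀ e : Fin 18, inc (ea e) e = true := by decide +kernel

theorem star_ind : ∀ (x : Fin 11) (e f : Fin 18), inc x e = true → inc x f = true →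
    dis e f = false := by decide +kernel

theorem nd {S : Set (Fin 18)} (hS : G.IsIndepSet S) {e f : Fin 18} (he : e ∈ S) (hf : f ∈ S) :
    dis e f = false := by
  by_cases h : e = f
  · subst h; exact self_dis e
  · have := hS he hf h
    simpa [G] using this

theorem in_star {S : Set (Fin 18)} (hS : G.IsIndepSet S) : ∃ x, ∀ g ∈ S, inc x g = true := by
  by_cases h : ∃ e ∈ S, ∃ f ∈ S, e ≠ f
  · obtain ⟨e, he, f, hf, hne⟩ := h
    obtain ⟨x, hx1, hx2⟩ := two e f (nd hS he hf)
    exact ⟨x, fun g hg => three e f g hne (nd hS he hf) (nd hS hg he) (nd hS hg hf) x hx1 hx2⟩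
  · push Not at h
    by_cases h2 : ∃ e, e ∈ S
    · obtain ⟨e, he⟩ := h2
      exact ⟨ea e, fun g hg => by rw [← h e he g hg]; exact inc_a e⟩
    · exact ⟨0, fun g hg => absurd ⟨g, hg⟩ h2⟩

theorem tri_core : ∀ (x : Fin 11) (u v : Fin 18), inc x u = false → inc x v = false →
    dis u v = true → ∃ w, inc x w = true ∧ dis w u = true ∧ dis w v = true := by decide +kernel

theorem tri : Triangle G := by
  intro S hS u v hu hv huv
  obtain ⟨x, hx⟩ := in_star hS.prop
  have hI : G.IsIndepSet {g | inc x g = true} := by
    intro e he f hf _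
    have := star_ind x e f he hf
    simp [G, this]
  have hsub : {g | inc x g = true} ⊆ S := hS.le_of_ge hI fun g hg => hx g hg
  have hu' : inc x u = false := by
    by_contra h; exact hu (hsub (by simpa using h))
  have hv' : inc x v = false := by
    by_contra h; exact hv (hsub (by simpa using h))
  obtain ⟨w, h1, h2, h3⟩ := tri_core x u v hu' hv' huv
  exact ⟨w, hsub h1, h2, h3⟩

def sat : List (Fin 11) → List (Fin 18) → Bool
  | [], _ => true
  | w :: ws, used =>
    if used.any (inc w) then sat ws used
    else (List.finRange 18).any fun g => inc w g && used.all (dis g) && sat ws (g :: used)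

theorem sat_ok {C : Set (Fin 18)} (hC : G.IsClique C) :
    ∀ (need : List (Fin 11)) (used : List (Fin 18)), (∀ g ∈ used, g ∈ C) →
      (∀ w ∈ need, ∃ g ∈ C, inc w g = true) → sat need used = true
  | [], _, _, _ => rfl
  | w :: ws, used, hu, hn => by
    have hn' : ∀ w ∈ ws, ∃ g ∈ C, inc w g = true := fun y hy => hn y (List.mem_cons_of_mem _ hy)
    unfold sat
    split_ifs with h
    · exact sat_ok hC ws used hu hn'
    · obtain ⟨g, hg, hw⟩ := hn w List.mem_cons_self
      rw [List.any_eq_true]
      refine ⟨g, List.mem_finRange g, ?_⟩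
      have h1 : used.all (dis g) = true := by
        rw [List.all_eq_true]
        intro f hf
        have hne : g ≠ f := by
          rintro rfl
          exact h (List.any_eq_true.2 ⟨g, hf, hw⟩)
        exact hC hg (hu f hf) hne
      have h2 := sat_ok hC ws (g :: used) (by
        intro f hf
        rcases List.mem_cons.1 hf with rfl | hf
        · exact hg
        · exact hu f hf) hn'
      simp [hw, h1, h2]

def chk (W : List (Fin 11)) : Bool :=
  !((List.finRange 18).all fun e => W.any fun x => inc x e) ||
    (List.finRange 18).any fun e => !sat W [e]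

theorem chk_all : ((List.finRange 11).sublists.all chk) = true := by decide +kernel

theorem not_normal : ¬ Normal G := by
  classical
  rintro ⟨𝒞, 𝒮, hC, hS, cC, cS, hm⟩
  let W : List (Fin 11) := (List.finRange 11).filter fun x => decide (∃ S ∈ 𝒮, ∀ g ∈ S, inc x g = true)
  have hW : W ∈ (List.finRange 11).sublists := List.mem_sublists.2 List.filter_sublist
  have h := List.all_eq_true.1 chk_all W hW
  have hcov : ((List.finRange 18).all fun e => W.any fun x => inc x e) = true := by
    rw [List.all_eq_true]
    intro e _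
    obtain ⟨S, hS1, he⟩ := cS e
    obtain ⟨x, hx⟩ := in_star (hS S hS1)
    refine List.any_eq_true.2 ⟨x, ?_, hx e he⟩
    simp only [W, List.mem_filter, List.mem_finRange, true_and, decide_eq_true_eq]
    exact ⟨S, hS1, hx⟩
  simp only [chk, hcov, Bool.not_true, Bool.false_or, List.any_eq_true] at h
  obtain ⟨e, _, he⟩ := h
  obtain ⟨C, hC1, heC⟩ := cC e
  have := sat_ok (hC C hC1) W [e] (by simpa using heC) (by
    intro w hw
    simp only [W, List.mem_filter, List.mem_finRange, true_and, decide_eq_true_eq] at hw
    obtain ⟨S, hS1, hx⟩ := hw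
    obtain ⟨g, hg1, hg2⟩ := hm C hC1 S hS1
    exact ⟨g, hg1, hx g hg2⟩)
  simp [this] at he

theorem result : ∃ G : SimpleGraph (Fin 18), Triangle G ∧ ¬ Normal G :=
  ⟨G, tri, not_normal⟩

end Pool.Agent.Results.MP_de1832_co.TriNotNormal
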